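import Mathlib
import Pool.Agent.H31.DMSat

set_option autoImplicit false
open SimpleGraph Finset Pool.Agent.H31.DMSatDefs Pool.Agent.H31.DMSat

namespace Pool.Agent.Results.MP_161132_co.Linear

theorem layer (K : ℕ) (hK : 1 ≤ K) (e N t : ℕ → ℕ) (e0 : e K = K + 2) (e1 : ∀ i < K, e i = i)
    (n1 : ∀ i < K, N i = e (i + 1) * t i) (n2 : ∀ i < K, N (i + 1) = 2 * t i) (n0 : 0 < N 0) :
    ∃ M, 0 < M ∧ Q (K + 2) M (M * 2) := by
  classical
  let S : Finset (ℕ × ℕ) := (range (K + 1)).biUnion fun i => {i} ×ˢ range (N i)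
  have hS : ∀ p : ℕ × ℕ, p ∈ S ↔ p.1 ≤ K ∧ p.2 < N p.1 := by
    intro p
    simp only [S, mem_biUnion, mem_range, mem_product, mem_singleton]
    exact ⟨fun ⟨i, a, b, c⟩ => ⟨by omega, b ▸ c⟩, fun ⟨a, b⟩ => ⟨_, by omega, rfl, b⟩⟩
  have eb : ∀ i < K, i + 1 ≤ e (i + 1) := fun i h => by
    rcases (show i + 1 < K ∨ i + 1 = K by omega) with c | c
    · rw [e1 _ c]
    · rw [c, e0]; omega
  let r : ℕ × ℕ → ℕ × ℕ → Prop := fun a b => a.1 + 1 = b.1 ∧ a.2 / e b.1 = b.2 / 2
  let G : SimpleGraph S := ⟨fun a b => r a b ∨ r b a, ⟨fun _ _ h => h.symm⟩,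
    ⟨fun a h => by simp [r] at h⟩⟩
  have up : ∀ v ∈ S, v.1 < K → ∀ y, y / 2 = v.2 / e (v.1 + 1) → (v.1 + 1, y) ∈ S := by
    intro v hv h y hy
    have := (Nat.div_lt_iff_lt_mul (k := e (v.1 + 1)) (x := v.2) (y := t v.1)
      (by have := eb _ h; omega)).mpr (by rw [mul_comm, ← n1 _ h]; exact ((hS v).mp hv).2)
    refine (hS _).mpr ⟨h, ?_⟩
    rw [n2 _ h]; simp only; omega
  have dn : ∀ i y, (i + 1, y) ∈ S → ∀ x, x / e (i + 1) = y / 2 → (i, x) ∈ S := by
    intro i y hv x hx
    obtain ⟨h, hy⟩ := (hS _).mp hv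
    simp only at h hy
    rw [n2 _ h] at hy
    refine (hS _).mpr ⟨by simp only; omega, ?_⟩
    rw [n1 _ h, mul_comm]
    exact (Nat.div_lt_iff_lt_mul (by have := eb _ h; omega)).mp (by simp only; omega)
  have dg1 : ∀ v : S, dg G v = v.1.1 + 2 := by
    rintro ⟨⟨i, x⟩, hv⟩
    have hi := ((hS _).mp hv).1
    simp only at hi ⊢
    let A : Finset (ℕ × ℕ) := if i < K then {i + 1} ×ˢ Ico (x / e (i + 1) * 2) (x / e (i + 1) * 2 + 2) else ∅
    let B : Finset (ℕ × ℕ) := {i - 1} ×ˢ Ico (x / 2 * e i) (x / 2 * e i + e i)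
    have : Subtype.val '' G.neighborSet ⟨(i, x), hv⟩ = ↑(A ∪ B) := by
      ext ⟨j, y⟩
      simp only [Set.mem_image, mem_neighborSet, Subtype.exists, exists_and_right, exists_eq_right,
        coe_union, Set.mem_union, mem_coe, G, r, A, B]
      constructor
      · rintro ⟨h, ⟨rfl, b⟩ | ⟨rfl, b⟩⟩
        · left
          rw [if_pos (show i < K from ((hS _).mp h).1)]
          simp only [mem_product, mem_singleton, mem_Ico, true_and]; omega
        · right
          simp only [mem_product, mem_singleton, mem_Ico, Nat.add_sub_cancel, true_and]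
          rw [← b]
          exact ⟨Nat.div_mul_le_self _ _, Nat.lt_div_mul_add (by have := eb j hi; omega)⟩
      · rintro (h | h)
        · split_ifs at h with c
          · simp only [mem_product, mem_singleton, mem_Ico] at h
            obtain ⟨rfl, h⟩ := h
            exact ⟨up _ hv c y (by simp only; omega), Or.inl ⟨rfl, by omega⟩⟩
          · simp at h
        · simp only [mem_product, mem_singleton, mem_Ico] at h
          obtain ⟨rfl, h⟩ := h
          rcases i with _ | i
          · rw [e1 0 hK] at h; omega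
          · have : y / e (i + 1) = x / 2 := Nat.div_eq_of_lt_le h.1 (by rw [add_mul, one_mul]; exact h.2)
            exact ⟨dn _ _ hv y this, Or.inr ⟨rfl, this⟩⟩
    rw [dg, ← Set.ncard_image_of_injective _ Subtype.val_injective, this, Set.ncard_coe_finset,
      card_union_of_disjoint]
    · simp only [A, B]
      split_ifs with c
      · simp [e1 _ c]; omega
      · simp [show i = K by omega, e0]
    · rw [Finset.disjoint_left]
      intro p a b
      simp only [A, B] at a b
      split_ifs at a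
      · simp only [mem_product, mem_singleton] at a b; omega
      · simp at a
  have upc : ∀ d (v : S), v.1.1 + d = K → ∃ c : ℕ → S, c v.1.1 = v ∧
      ∀ j, v.1.1 ≤ j → j ≤ K → (c j).1.1 = j ∧ (j < K → r (c j) (c (j + 1))) := by
    intro d
    induction d with
    | zero => exact fun v h => ⟨fun _ => v, rfl, fun j a b => ⟨by simp only; omega, by omega⟩⟩
    | succ d ih =>
      intro v h
      obtain ⟨c, c1, c2⟩ := ih ⟨_, up v v.2 (by omega) (v.1.2 / e (v.1.1 + 1) * 2) (by omega)⟩
        (by simp only; omega)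
      simp only at c1 c2
      refine ⟨fun j => if j = v.1.1 then v else c j, by simp, fun j a b => ?_⟩
      by_cases q : j = v.1.1
      · subst q
        simp only [if_true, true_and, Nat.succ_ne_self, if_false, c1, r]
        omega
      · simp only [if_neg q, if_neg (show j + 1 ≠ v.1.1 by omega)]
        exact c2 j (by omega) b
  have dnc : ∀ i (v : S), v.1.1 = i → ∃ c : ℕ → S, c i = v ∧
      ∀ j ≤ i, (c j).1.1 = j ∧ (j < i → r (c j) (c (j + 1))) := by
    intro i
    induction i with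
    | zero => exact fun v h => ⟨fun _ => v, rfl, fun j a => ⟨by simp only; omega, by omega⟩⟩
    | succ i ih =>
      rintro ⟨⟨_, y⟩, hv⟩ rfl
      have hi := ((hS _).mp hv).1
      have hx : y / 2 * e (i + 1) / e (i + 1) = y / 2 :=
        Nat.mul_div_cancel _ (by have := eb i hi; omega)
      obtain ⟨c, c1, c2⟩ := ih ⟨_, dn _ _ hv _ hx⟩ rfl
      refine ⟨fun j => if j = i + 1 then ⟨_, hv⟩ else c j, by simp, fun j a => ?_⟩
      by_cases q : j = i + 1
      · simp [q]
      · simp only [if_neg q]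
        refine ⟨(c2 j (by omega)).1, fun _ => ?_⟩
        by_cases q' : j = i
        · subst q'
          simp only [if_true, c1, r, hx, and_self]
        · rw [if_neg (by omega)]; exact (c2 j (by omega)).2 (by omega)
  have good : ∀ v : S, v.1.1 < K → Good G (K + 2) v := by
    rintro ⟨⟨i, x⟩, hv⟩ hi w w1 w2 w3
    simp only at hi
    simp only [dg1] at w1 w2 w3
    have he := eb i hi
    set q := x / e (i + 1) with hq
    let u : S := ⟨_, up _ hv hi (q * 2) (by simp only; omega)⟩
    let u' : S := ⟨_, up _ hv hi (q * 2 + 1) (by simp only; omega)⟩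
    have ru : r (i, x) u := ⟨rfl, by simp only [u]; omega⟩
    have ru' : r (i, x) u' := ⟨rfl, by simp only [u']; omega⟩
    obtain ⟨x', hx1, hx2⟩ : ∃ x', x' / e (i + 1) = q * 2 / 2 ∧ (0 < i → x' ≠ x) := by
      by_cases c : x = q * e (i + 1)
      · by_cases i0 : i = 0
        · exact ⟨x, by omega, by omega⟩
        · exact ⟨x + 1, Nat.div_eq_of_lt_le (by rw [Nat.mul_div_cancel _ two_pos]; omega)
            (by rw [Nat.mul_div_cancel _ two_pos, add_mul]; omega), by omega⟩
      · exact ⟨q * e (i + 1), by rw [Nat.mul_div_cancel _ (by omega)]; omega, fun _ h => c h.symm⟩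
    obtain ⟨a, a1, a2⟩ := dnc i ⟨_, dn _ _ u.2 x' hx1⟩ rfl
    obtain ⟨c, c1, c2⟩ := upc (K - (i + 1)) u' (by simp only [u']; omega)
    simp only [u'] at c1 c2
    let p : ℕ → S := fun j => if j < i then a (j + 1) else if j = i then u
      else if j = i + 1 then ⟨_, hv⟩ else c (j - 1)
    have p1 : ∀ j < i, p j = a (j + 1) := fun j h => if_pos h
    have p2 : p i = u := by simp [p]
    have p3 : p (i + 1) = ⟨_, hv⟩ := by simp [p]
    have p4 : ∀ j, i + 1 < j → p j = c (j - 1) := fun j h => by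
      simp only [p]; rw [if_neg (by omega), if_neg (by omega), if_neg (by omega)]
    have lv : ∀ j < K + 2, (j ≤ i → (p j).1.1 = j + 1) ∧ (j = i + 1 → (p j).1.1 = i) ∧
        (i + 1 < j → (p j).1.1 = j - 1) := by
      refine fun j h => ⟨fun b => ?_, fun b => by rw [b, p3], fun b => ?_⟩
      · rcases b.lt_or_eq with b | rfl
        · rw [p1 j b]; exact (a2 _ b).1
        · rw [p2]
      · rw [p4 j b]; exact (c2 _ (by omega) (by omega)).1
    refine ⟨p, fun j l jl lk h => ?_, fun j hj => ?_⟩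
    · have h1 := lv j (by omega)
      have h2 := lv l lk
      have h3 : (p j).1.1 = (p l).1.1 := by rw [h]
      rcases (show j + 1 = i ∧ l = i + 1 ∨ j = i ∧ l = i + 2 by omega) with ⟨b, rfl⟩ | ⟨rfl, rfl⟩
      · rw [p1 j (by omega), b, a1, p3] at h
        exact hx2 (by omega) (congrArg (fun z : S => z.1.2) h)
      · rw [p2, p4 _ (by omega), show j + 2 - 1 = j + 1 from rfl, c1] at h
        have := congrArg (fun z : S => z.1.2) h
        simp only [u] at this; omega
    · have h1 := lv j (by omega)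
      have h2 := lv _ hj
      have h3 := w3 (p j)
      have h4 := w3 (p (j + 1))
      rcases (show j + 1 < i ∨ j + 1 = i ∨ j = i ∨ j = i + 1 ∨ i + 1 < j by omega) with b | b | rfl | rfl | b
      · refine ⟨?_, by omega⟩
        rw [p1 j (by omega), p1 _ b]; exact Or.inl ((a2 _ b.le).2 b)
      · refine ⟨?_, by omega⟩
        rw [p1 j (by omega), b, a1, p2]; exact Or.inl ⟨rfl, hx1⟩
      · rw [p2, p3, w1, w2 u (Or.inl ru)]; exact ⟨Or.inr ru, le_rfl⟩
      · rw [p3, p4 _ (by omega), Nat.add_sub_cancel, c1, w1, w2 _ (Or.inl ru')]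
        exact ⟨Or.inl ru', le_rfl⟩
      · refine ⟨?_, by omega⟩
        rw [p4 j b, p4 _ (by omega), show j + 1 - 1 = j - 1 + 1 by omega]
        exact Or.inl ((c2 _ (by omega) (by omega)).2 (by omega))
  refine ⟨Fintype.card S, Fintype.card_pos_iff.mpr ⟨⟨(0, 0), (hS _).mpr ⟨by simp, n0⟩⟩⟩, S,
    inferInstance, G, rfl, ⟨fun p hp => ?_, fun v => ?_⟩, ?_⟩
  · have : ∀ j < K + 2, j ≤ (p j).1.1 := by
      intro j
      induction j with
      | zero => simp
      | succ j ih =>
        intro h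
        have := ih (by omega)
        obtain ⟨a | a, b⟩ := hp.2 j h <;> rw [dg1, dg1] at b <;> have := a.1 <;> omega
    have := this (K + 1) (by omega)
    have := ((hS _).mp (p (K + 1)).2).1
    omega
  · rcases ((hS _).mp v.2).1.lt_or_eq with h | h
    · exact Or.inl (good v h)
    · obtain ⟨c, c1, c2⟩ := dnc K v h
      refine Or.inr ⟨c, ⟨fun i j a b h => ?_, fun i a => ?_⟩, c1,
        fun i a => Or.inr (good _ (by rw [(c2 i (by omega)).1]; omega))⟩
      · have := (c2 i (by omega)).1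
        rw [h, (c2 j (by omega)).1] at this; omega
      · refine ⟨Or.inl ((c2 i (by omega)).2 (by omega)), ?_⟩
        rw [dg1, dg1, (c2 i (by omega)).1, (c2 _ (by omega)).1]; omega
  · let T : Set (S × S) := {z | r z.1 z.2}
    have a : G.edgeSet ⊆ (fun z : S × S => s(z.1, z.2)) '' T := by
      intro s hs
      induction s using Sym2.ind with
      | h u v =>
        rcases hs with h | h
        exacts [⟨(u, v), h, rfl⟩, ⟨(v, u), h, Sym2.eq_swap⟩]
    refine (Set.ncard_le_ncard a (Set.toFinite _)).trans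
      ((Set.ncard_image_le (Set.toFinite _)).trans ?_)
    have := Set.ncard_le_ncard_of_injOn (s := T) (t := (Set.univ : Set (S × Fin 2)))
      (fun z => (z.1, ⟨z.2.1.2 % 2, by omega⟩)) (fun _ _ => trivial) (by
        rintro ⟨a, b⟩ ⟨h1, h2⟩ ⟨a', b'⟩ ⟨h3, h4⟩ h
        simp only [Prod.mk.injEq, Fin.mk.injEq] at h h1 h2 h3 h4
        obtain ⟨rfl, h⟩ := h
        have : b.1.1 = b'.1.1 := by omega
        rw [this] at h2
        exact Prod.ext rfl (Subtype.ext (Prod.ext this (by simp only; omega))))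
    simpa [Set.ncard_univ] using this

theorem block (K : ℕ) (hK : 1 ≤ K) : ∃ M, 0 < M ∧ Q (K + 2) M (M * 2) := by
  let e : ℕ → ℕ := fun i => if i = K then K + 2 else i
  let t : ℕ → ℕ := fun i => 2 ^ i * ∏ j ∈ Ico (i + 1) K, e (j + 1)
  have ep : ∀ j, 0 < e (j + 1) := fun j => by simp only [e]; split_ifs <;> omega
  refine layer K hK e (fun i => if i = 0 then e 1 * t 0 else 2 * t (i - 1)) t (by simp [e])
    (fun i h => if_neg h.ne) (fun i h => ?_) (fun i _ => by simp) ?_
  · rcases i with _ | i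
    · simp
    · simp only [t, Nat.succ_ne_zero, if_false, Nat.add_sub_cancel]
      rw [prod_eq_prod_Ico_succ_bot h]; ring
  · simp only [if_true, t]
    exact Nat.mul_pos (ep 0) (Nat.mul_pos (by positivity) (prod_pos fun j _ => ep j))

theorem ex {k n e : ℕ} (hk : 2 ≤ k) (a : Q k n e) :
    ∃ G : SimpleGraph (Fin n), Sat G k ∧ G.edgeSet.ncard ≤ e := by
  obtain ⟨V, _, G, c, a1, a2⟩ := a
  let f := Fintype.equivFinOfCardEq c
  exact ⟨G.comap f.symm, sat_of hk (P.cover fun z => ⟨V, G, f, f.symm z,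
    ⟨f.injective, by simp, fun _ z _ => f.surjective z⟩, a1, by simp⟩),
    (Set.ncard_congr' (Iso.comap f.symm G).mapEdgeSet).le.trans a2⟩

theorem result : ∃ c : ℕ, ∀ k ≥ 2, ∃ N, ∀ n ≥ N,
    ∃ G : SimpleGraph (Fin n), Sat G k ∧ G.edgeSet.ncard ≤ c * n := by
  refine ⟨3, fun k hk => ?_⟩
  rcases (show k = 2 ∨ 3 ≤ k by omega) with rfl | h3
  · obtain ⟨V, _, G, a, b, -⟩ := (clique 0).choose_spec
    have : Q 2 1 0 := ⟨V, _, G, a, b, by
      haveI := Fintype.card_le_one_iff_subsingleton.mp a.le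
      simp [Subsingleton.elim G ⊥]⟩
    refine ⟨0, fun n _ => ?_⟩
    have := this.mul n
    rw [mul_one] at this
    exact (ex le_rfl this).imp fun G h => ⟨h.1, by have := h.2; omega⟩
  obtain ⟨t, rfl⟩ : ∃ t, k = t + 3 := ⟨k - 3, by omega⟩
  obtain ⟨M, M0, q0⟩ := block (t + 1) (by omega)
  obtain ⟨a, q1⟩ := clique (t + 1)
  obtain ⟨b, q2⟩ := cliqueMinus t
  refine ⟨((t + 3) * (t + 2) + M) * (a + b + 1), fun n hn => ?_⟩
  have n1 : (t + 3) * (t + 2) ≤ n := by nlinarith
  obtain ⟨R, s, rfl, R1, R2⟩ : ∃ R s, n = s * M + R ∧ (t + 3) * (t + 2) ≤ R ∧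
      R ≤ (t + 3) * (t + 2) + M := by
    have := Nat.div_add_mod' (n - (t + 3) * (t + 2)) M
    have := Nat.mod_lt (n - (t + 3) * (t + 2)) M0
    exact ⟨(t + 3) * (t + 2) + (n - (t + 3) * (t + 2)) % M, (n - (t + 3) * (t + 2)) / M,
      by omega, by omega, by omega⟩
  obtain ⟨p, q, rfl⟩ : ∃ p q, R = p * (t + 2) + q * (t + 3) := by
    have h1 := Nat.div_add_mod' R (t + 2)
    have h2 := Nat.mod_lt R (show 0 < t + 2 by omega)
    have h3 := (Nat.le_div_iff_mul_le (show 0 < t + 2 by omega)).mpr R1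
    obtain ⟨p, hp⟩ := Nat.exists_eq_add_of_le (show R % (t + 2) ≤ R / (t + 2) by omega)
    exact ⟨p, R % (t + 2), by rw [hp] at h1; nlinarith⟩
  refine (ex hk ((q0.mul s).add ((q1.mul p).add (q2.mul q)))).imp fun G h => ⟨h.1, h.2.trans ?_⟩
  have : p * a + q * b ≤ (p * (t + 2) + q * (t + 3)) * (a + b + 1) := by
    nlinarith [Nat.zero_le (p * t * (a + b + 1)), Nat.zero_le (q * t * (a + b + 1)),
      Nat.zero_le (p * b), Nat.zero_le (q * a), Nat.zero_le (p * a), Nat.zero_le (q * b)]
  have := Nat.mul_le_mul_right (a + b + 1) R2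
  nlinarith [Nat.zero_le (p * (t + 2) + q * (t + 3))]

end Pool.Agent.Results.MP_161132_co.Linear
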